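import Mathlib

/-!
# A finite set of valid conditional equations of common meadows deriving all `φ_p`

The conditional equation
`0 · y = 0 ∧ (0/2) · (0/3) = (0/2) · (0/(2 · y + 1)) → 0/3 = 0/(2 · y + 1)`
is true in every common meadow: in characteristic two the denominators `3` and `2 y + 1` are both
equal to `1`, and in all other characteristics `0/2 = 0`. Every odd number `p` has the form
`2 k + 1`, and `0 · k = 0` as well as `p = 2 · k + 1` follow from finitely many equations.
So one finite set derives `φ_p` for all odd `p`.
-/

set_option autoImplicit false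

universe u v

namespace Pool.Agent.Results.MP_f888fa_lc.FiniteBasisForPhi

/-- Terms over the signature `(0, 1, ⊥, +, -, ·, ÷)` and the variables `x_0, x_1, …`. -/
inductive Term : Type
  | var : ℕ → Term
  | zero : Term
  | one : Term
  | bot : Term
  | add : Term → Term → Term
  | neg : Term → Term
  | mul : Term → Term → Term
  | div : Term → Term → Term

/-- An algebra of this signature with carrier `A`. -/
structure SigAlg (A : Type u) where
  zero : A
  one : A
  bot : A
  add : A → A → A
  neg : A → A
  mul : A → A → A
  div : A → A → A

/-- The value of a term under a valuation of the variables. -/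
def Term.val {A : Type u} (M : SigAlg A) (v : ℕ → A) : Term → A
  | .var n => v n
  | .zero => M.zero
  | .one => M.one
  | .bot => M.bot
  | .add s t => M.add (s.val M v) (t.val M v)
  | .neg s => M.neg (s.val M v)
  | .mul s t => M.mul (s.val M v) (t.val M v)
  | .div s t => M.div (s.val M v) (t.val M v)

/-- A conditional equation `e_1 ∧ … ∧ e_n → e`; an equation is a pair of terms. -/
structure CondEq where
  premises : List (Term × Term)
  conclusion : Term × Term

/-- A conditional equation is true in an algebra, all variables being read universally. -/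
def TrueIn {A : Type u} (M : SigAlg A) (e : CondEq) : Prop :=
  ∀ v : ℕ → A, (∀ q ∈ e.premises, q.1.val M v = q.2.val M v) →
    e.conclusion.1.val M v = e.conclusion.2.val M v

open Classical in
/-- The common meadow of a field `F`: one element `⊥ = none` is added, it is absorptive, and
`x / y = x · y⁻¹` if `y ≠ 0`, `x / 0 = ⊥`. -/
noncomputable def commonMeadow (F : Type u) [Field F] : SigAlg (Option F) where
  zero := some 0
  one := some 1
  bot := none
  add x y := match x, y with
    | some a, some b => some (a + b)
    | _, _ => none
  neg x := match x with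
    | some a => some (-a)
    | none => none
  mul x y := match x, y with
    | some a, some b => some (a * b)
    | _, _ => none
  div x y := match x, y with
    | some a, some b => if b = 0 then none else some (a * b⁻¹)
    | _, _ => none

/-- The numerals `0`, `1`, `2 = 1 + 1`, `3 = 1 + 1 + 1`, … -/
def num : ℕ → Term
  | 0 => .zero
  | 1 => .one
  | n + 2 => .add (num (n + 1)) .one

/-- The conditional equation `φ_p`: `(0/2) · (0/3) = (0/2) · (0/p) → 0/3 = 0/p`. -/
def phi (p : ℕ) : CondEq where
  premises := [(.mul (.div .zero (num 2)) (.div .zero (num 3)),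
    .mul (.div .zero (num 2)) (.div .zero (num p)))]
  conclusion := (.div .zero (num 3), .div .zero (num p))

/-- `E ⊢ e`: the conditional equation `e` is true in every algebra of the signature in which all
members of `E` are true. (By completeness of conditional equational logic this is derivability.) -/
def Derives (E : Set CondEq) (e : CondEq) : Prop :=
  ∀ (A : Type v) (M : SigAlg A), (∀ d ∈ E, TrueIn M d) → TrueIn M e

/-! ### the finite set -/

/-- an equation as a conditional equation without premises -/
def eqn (s t : Term) : CondEq := ⟨[], (s, t)⟩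

/-- the first variable -/
abbrev x0 : Term := .var 0
/-- the second variable -/
abbrev x1 : Term := .var 1
/-- the third variable -/
abbrev x2 : Term := .var 2

/-- `2 · y + 1` -/
abbrev odd1 : Term := .add (.mul (.add .one .one) x0) .one

/-- the key conditional equation -/
def psi : CondEq where
  premises := [(.mul .zero x0, .zero),
    (.mul (.div .zero (num 2)) (.div .zero (num 3)),
      .mul (.div .zero (num 2)) (.div .zero odd1))]
  conclusion := (.div .zero (num 3), .div .zero odd1)

/-- the finite set -/
def basis : List CondEq :=
  [psi,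
   eqn (.mul x0 (.add x1 x2)) (.add (.mul x0 x1) (.mul x0 x2)),
   eqn (.add (.add x0 x1) x2) (.add x0 (.add x1 x2)),
   eqn (.add x0 x1) (.add x1 x0),
   eqn (.mul x0 .one) x0,
   eqn (.add x0 .zero) x0,
   eqn (.mul .zero .zero) .zero,
   eqn (.mul (.add .one .one) .zero) .zero]

theorem psi_valid (F : Type u) [Field F] : TrueIn (commonMeadow F) psi := by
  intro v h
  have h1 := h _ (List.mem_cons_self ..)
  have h2 := h _ (List.mem_cons_of_mem _ (List.mem_cons_self ..))
  simp only [psi, Term.val, num, commonMeadow] at h1 h2 ⊢
  rcases hy : v 0 with _ | a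
  · rw [hy] at h1
    simp at h1
  · rw [hy] at h2
    simp only at h2 ⊢
    by_cases c2 : (1 + 1 : F) = 0
    · simp [c2]
    · by_cases c3 : (1 + 1 + 1 : F) = 0
      · by_cases c4 : ((1 + 1) * a + 1 : F) = 0
        · simp [c3, c4]
        · simp [c2, c3, c4] at h2
      · by_cases c4 : ((1 + 1) * a + 1 : F) = 0
        · simp [c2, c3, c4] at h2
        · simp [c3, c4]

theorem basis_valid (F : Type u) [Field F] (e : CondEq) (he : e ∈ basis) :
    TrueIn (commonMeadow F) e := by
  simp only [basis, List.mem_cons, List.not_mem_nil, or_false] at he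
  rcases he with rfl | rfl | rfl | rfl | rfl | rfl | rfl | rfl
  · exact psi_valid F
  · intro v _
    simp only [eqn, Term.val, commonMeadow]
    rcases v 0 with _ | a <;> rcases v 1 with _ | b <;> rcases v 2 with _ | c <;> simp [mul_add]
  · intro v _
    simp only [eqn, Term.val, commonMeadow]
    rcases v 0 with _ | a <;> rcases v 1 with _ | b <;> rcases v 2 with _ | c <;> simp [add_assoc]
  · intro v _
    simp only [eqn, Term.val, commonMeadow]
    rcases v 0 with _ | a <;> rcases v 1 with _ | b <;> simp [add_comm]
  · intro v _
    simp only [eqn, Term.val, commonMeadow]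
    rcases v 0 with _ | a <;> simp
  · intro v _
    simp only [eqn, Term.val, commonMeadow]
    rcases v 0 with _ | a <;> simp
  · intro v _
    simp [eqn, Term.val, commonMeadow]
  · intro v _
    simp [eqn, Term.val, commonMeadow]

section
variable {A : Type v} (M : SigAlg A)

theorem num_succ (hC : ∀ a b, M.add a b = M.add b a) (hZ : ∀ a, M.add a M.zero = a)
    (w : ℕ → A) (k : ℕ) : (num (k + 1)).val M w = M.add ((num k).val M w) M.one := by
  cases k with
  | zero =>
    show M.one = M.add M.zero M.one
    rw [hC, hZ]
  | succ k => rfl

theorem num_odd (hD : ∀ a b c, M.mul a (M.add b c) = M.add (M.mul a b) (M.mul a c))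
    (hA : ∀ a b c, M.add (M.add a b) c = M.add a (M.add b c))
    (hC : ∀ a b, M.add a b = M.add b a) (hO : ∀ a, M.mul a M.one = a)
    (hZ : ∀ a, M.add a M.zero = a) (h20 : M.mul (M.add M.one M.one) M.zero = M.zero)
    (w : ℕ → A) (k : ℕ) : (num (2 * k + 1)).val M w =
      M.add (M.mul (M.add M.one M.one) ((num k).val M w)) M.one := by
  induction k with
  | zero =>
    show M.one = M.add (M.mul (M.add M.one M.one) M.zero) M.one
    rw [h20, hC, hZ]
  | succ k ih =>
    have e : 2 * (k + 1) + 1 = (2 * k + 1) + 1 + 1 := by ring
    rw [e, num_succ M hC hZ, num_succ M hC hZ, ih, num_succ M hC hZ, hD, hO]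
    simp only [hA]

theorem zero_mul_num (hD : ∀ a b c, M.mul a (M.add b c) = M.add (M.mul a b) (M.mul a c))
    (hC : ∀ a b, M.add a b = M.add b a) (hO : ∀ a, M.mul a M.one = a)
    (hZ : ∀ a, M.add a M.zero = a) (h00 : M.mul M.zero M.zero = M.zero)
    (w : ℕ → A) (k : ℕ) : M.mul M.zero ((num k).val M w) = M.zero := by
  induction k with
  | zero => exact h00
  | succ k ih => rw [num_succ M hC hZ, hD, ih, hO, hZ]

end

theorem basis_derives (p : ℕ) (hp : Odd p) : Derives.{v} {e | e ∈ basis} (phi p) := by
  intro A M h v hv
  have hmem : ∀ e, e ∈ basis → TrueIn M e := h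
  have hpsi : TrueIn M psi := hmem _ (by simp [basis])
  have hD : ∀ a b c, M.mul a (M.add b c) = M.add (M.mul a b) (M.mul a c) := fun a b c =>
    hmem (eqn (.mul x0 (.add x1 x2)) (.add (.mul x0 x1) (.mul x0 x2))) (by simp [basis])
      (fun n => if n = 0 then a else if n = 1 then b else c) (by simp [eqn])
  have hA : ∀ a b c, M.add (M.add a b) c = M.add a (M.add b c) := fun a b c =>
    hmem (eqn (.add (.add x0 x1) x2) (.add x0 (.add x1 x2))) (by simp [basis])
      (fun n => if n = 0 then a else if n = 1 then b else c) (by simp [eqn])
  have hC : ∀ a b, M.add a b = M.add b a := fun a b =>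
    hmem (eqn (.add x0 x1) (.add x1 x0)) (by simp [basis])
      (fun n => if n = 0 then a else b) (by simp [eqn])
  have hO : ∀ a, M.mul a M.one = a := fun a =>
    hmem (eqn (.mul x0 .one) x0) (by simp [basis]) (fun _ => a) (by simp [eqn])
  have hZ : ∀ a, M.add a M.zero = a := fun a =>
    hmem (eqn (.add x0 .zero) x0) (by simp [basis]) (fun _ => a) (by simp [eqn])
  have h00 : M.mul M.zero M.zero = M.zero :=
    hmem (eqn (.mul .zero .zero) .zero) (by simp [basis]) v (by simp [eqn])
  have h20 : M.mul (M.add M.one M.one) M.zero = M.zero :=
    hmem (eqn (.mul (.add .one .one) .zero) .zero) (by simp [basis]) v (by simp [eqn])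
  obtain ⟨k, rfl⟩ := hp
  have hodd := num_odd M hD hA hC hO hZ h20 v k
  have h1 := hv _ (List.mem_cons_self ..)
  simp only [Term.val, hodd] at h1
  have h2 := hpsi (fun _ => (num k).val M v) (by
    intro q hq
    simp only [psi, List.mem_cons, List.not_mem_nil, or_false] at hq
    rcases hq with rfl | rfl
    · exact zero_mul_num M hD hC hO hZ h00 v k
    · exact h1)
  simp only [phi, Term.val, hodd]
  exact h2

/-- **Main result.** There is a finite set `E` of conditional equations, each true in the common
meadow of every field, such that `E ⊢ φ_p` for every odd number `p`, in particular for every prime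
`p ≥ 5`. -/
theorem result : ∃ E : Set CondEq, E.Finite ∧
    (∀ e ∈ E, ∀ (F : Type u) [Field F], TrueIn (commonMeadow F) e) ∧
    (∀ p : ℕ, Odd p → Derives.{v} E (phi p)) ∧
    (∀ p : ℕ, p.Prime → 5 ≤ p → Derives.{v} E (phi p)) := by
  refine ⟨{e | e ∈ basis}, List.finite_toSet basis, fun e he F _ => basis_valid F e he,
    basis_derives, fun p hp h5 => basis_derives p (hp.odd_of_ne_two (by omega))⟩

end Pool.Agent.Results.MP_f888fa_lc.FiniteBasisForPhi
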